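import Pool.Agent.Run7.h546.Final

/-!
Chow groups of low dimension of the hypersurfaces `x₀ ^ d + G(x) = 0`, where `G` is a sum of forms in
blocks of variables and in common variables.
-/

set_option autoImplicit false

namespace Pool.Agent.Results.MP_13bc1c_ag.BlockHypersurfaces

open MvPolynomial Run7.h546

/-- Let `X` be the hypersurface `x₀ ^ d + G(x) = 0` over an algebraically closed field of
characteristic zero, where `G` is a form of degree `d` in the variables `x j`, `j : σ`. The variables
with `β j = b`, for `b < m`, form the `b`-th block; the other variables are common. Assume that no
monomial of `G` involves two different blocks, and that the degree of `G` in the variables of a block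
is at most the number of the variables of the block. Then, for `l < m`, any two `l`-dimensional
subvarieties of `X` have classes that are proportional, with positive integers as factors, modulo
rational equivalence. -/
theorem result (K : Type) [Field K] [IsAlgClosed K] [CharZero K] (σ : Type) [Finite σ]
    (d m l : ℕ) (hd : 0 < d) (G : MvPolynomial σ K) (hG : G.IsHomogeneous d) (β : σ → ℕ)
    (hβ : Blocks β m G) (hl : l < m) (Z₁ Z₂ : Set (MvPolynomial (Option σ) K))
    (h₁ : IsSubvariety (cyc d G) l Z₁) (h₂ : IsSubvariety (cyc d G) l Z₂) :
    Proportional (cyc d G) l Z₁ Z₂ := by
  unfold Proportional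
  rw [RatZero_eq]
  exact main hd hG hβ.separated hβ.nonempty hβ.degree hl h₁ h₂

end Pool.Agent.Results.MP_13bc1c_ag.BlockHypersurfaces
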