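import Pool.Agent.Run7.h567.BL.Cov

/-!
# The generalized Bloch conjecture for correspondences between motives of abelian varieties

All abelian varieties are over `ℂ` and taken up to isogeny (`AV`). Let `M = (X, p)` and `N = (Y, p')` be
direct summands of the Chow motives of abelian varieties `X` and `Y` and let `f : M → N` be a morphism
(a correspondence of degree zero, with rational coefficients). Write `A_i(M)` for the group of the
homologically trivial cycles of dimension `i` on `M` modulo rational equivalence, with rational
coefficients. The theorem, for all `c ≥ 0` and all `i < c`: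

(1) If `X` is covered, and `f` is an endomorphism of `X` such that the image of `f^*` has Hodge numbers
`h^(s, t) = 0` for all `s ≠ t` with `s < c` or `t < c`, then a power of `f` kills `A_i(X)`. (`f` itself
need not kill `A_i(X)`.) If `f` is an idempotent, it is a sum of compositions `X → Y → X` of
correspondences of degrees `-c` and `c`, where `Y` is an abelian variety, or `-r` and `r`, where `Y` is
a point and `r < c`; so if the motive `M` has Hodge coniveau at least `c` then `A_i(M) = 0`. This is the
generalized Bloch conjecture for all smooth projective varieties whose motive is such a direct summand.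

(2) If `X` is covered and `f^* : H^(s, t)(N) → H^(s, t)(M)` is surjective for all `s ≠ t` with `s < c` or
`t < c`, then `f_* : A_i(M) → A_i(N)` is injective.

(3) If `Y` is covered and `f^* : H^(s, t)(N) → H^(s, t)(M)` is injective for all `s ≠ t` with `s < c` or
`t < c`, then `f_* : A_i(M) → A_i(N)` is surjective.

For `N = 0` in (2) and `M = 0` in (3) this is the generalized Bloch conjecture. In the cases of (2) and
(3) nothing is assumed about the other abelian variety `Y` or `X`.

The covered abelian varieties (`Covered`) are the `X` of one of the following three kinds.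

(a) Let `T k` be finitely many CM types, divided into independent blocks, such that for each block
all CM types of the CM fields in this block are conjugate, or the total dimension of the block is at
most three, or the block consists of all CM types of a Galois CM field of degree at most six. Each
simple factor of `X` is

* a factor of one of the abelian varieties with CM types `T k`, or
* without complex multiplication, in one of the classes of `Typ`, and such that each imaginary quadratic
  field which acts with two different multiplicities on the tangent space is the field of an elliptic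
  curve of the first kind (fourfolds with such an action are excluded).

(b) Each simple factor of `X` is a factor of one abelian variety `A` of dimension at most three; for
instance all powers of `A`.

(c) Each simple factor of `X` has complex multiplication, or is in one of the classes of `Typ` (fourfolds of
signature `(3, 1)` excepted); and the Hodge conjecture is true for all abelian varieties with complex
multiplication.

The generalized Hodge conjecture for these `X` is from the starting files: `Pool.Agent.N178.HX` (the theorem
of `Pool.Agent.Results.MP_90e98f_ag.PowersAndCMFields`). The passage from it to cycles on a motive is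
`Pool.Agent.N178.BL` of the starting files, used in `Pool.Agent.Results.MP_13bc1c_ag.SmallPeriodFields` for
abelian varieties with other simple factors. Here it is extended to arbitrary correspondences
(`Pool.Agent.Run7.h567.BL`): if `g` is a generalized inverse of `f` modulo homological equivalence, the
endomorphisms `p - p g f` of `M` and `p' - f g p'` of `N` have Hodge coniveau at least `c` under the
assumptions of (2) and (3), so that they act nilpotently; the complexifications of disjoint rational
subspaces are disjoint.

The structure `ChowTheory` (`Pool.Agent.N178.BL.Defs`) collects the known properties of the Chow groups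
of abelian varieties which are used; `PreservesDegrees` is one more known property.
-/

set_option autoImplicit false

namespace Pool.Agent.Results.MP_13bc1c_ag.Correspondences

open Module NumberField Pool.Agent.Y90 Pool.Agent.R915
open Pool.Agent.H204R3.CM (IsCMType)
open Pool.Agent.W546.GHC (complexify typeForms)
open Pool.Agent.W547.KB (CMPair CMAV single)
open Pool.Agent.W547.LN (SameType)
open Pool.Agent.N830.HC (av)
open Pool.Agent.N178.BL (ChowTheory HT)

/-! ## The abelian varieties -/

/-- The classes of simple abelian varieties: dimension at most three; or the endomorphism algebra is an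
imaginary quadratic field of signature `(p, q)` with `p, q ≤ 3` (and trivial discriminant for `(3, 3)`); or
Albert type I or II of relative dimension at most three; or dimension five and endomorphism algebra `ℚ`; or
Albert type I or II, any dimension, with the largest possible Hodge group. -/
def Typ (Y : AV) : Prop :=
  finrank ℚ Y.H ≤ 6 ∨ QuadMult Y ∨ RealMult Y ∨ FiveDim Y ∨ FullHodge Y

/-- Each simple factor `Y` of `X` is a factor of an abelian variety with one of the CM types `T k`; or
it has no complex multiplication, belongs to one of the classes in `Typ`, and if `ℚ(√-d)` acts on `Y`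
with two different multiplicities then `Y` is not a fourfold and the elliptic curve `E` with complex
multiplication by this field is a factor of an abelian variety with one of the CM types `T k`. -/
def HasFactorsIn {K : Type} (T : K → CMPair) (X : AV) : Prop :=
  ∀ Y, IsFactor Y X → (∃ k, IsFactor Y (av (single (T k)))) ∨ (¬ HasCMult Y ∧ Typ Y ∧
    ∀ d : ℚ, Unbalanced Y d → finrank ℚ Y.H ≠ 8 ∧
      ∃ k E, IsFactor E (av (single (T k))) ∧ finrank ℚ E.H = 2 ∧ Unbalanced E d)

/-- All CM types of the CM fields in the block `B` are conjugate, simultaneously: for each family of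
CM types `Ψ k` of the CM fields there is an automorphism of `ℂ` which takes `Ψ k` to the CM type
`T k`, for all `k` in `B`. -/
def AllConjugate {K : Type} (T : K → CMPair) (B : Set K) : Prop :=
  ∀ Ψ : ∀ k, Set ((T k).E →+* ℂ), (∀ k, IsCMType (Ψ k)) →
    ∃ σ : ℂ ≃+* ℂ, ∀ k ∈ B, ∀ φ, φ ∈ Ψ k ↔ (σ : ℂ →+* ℂ).comp φ ∈ (T k).Φ

/-- The CM fields of the block `B` are subfields of the Galois CM field `L`, and all CM types of `L`
occur. -/
def AllTypes {K : Type} (T : K → CMPair) (B : Set K) (L : Type) [Field L] [NumberField L]
    [IsCMField L] : Prop :=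
  IsGalois ℚ L ∧ (∀ k ∈ B, Nonempty ((T k).E →+* L)) ∧
    ∀ (Φ : Set (L →+* ℂ)) (hΦ : IsCMType Φ), ∃ k ∈ B, SameType ⟨L, Φ, hΦ⟩ (T k)

/-- The total dimension of the block is at most three. -/
def DimAtMostThree {K : Type} (T : K → CMPair) (B : Set K) : Prop :=
  ∃ F : Finset K, (∀ k, k ∈ F ↔ k ∈ B) ∧ ∑ k ∈ F, finrank ℚ (T k).E ≤ 6

/-- The blocks `{k | b k = j}` are independent: automorphisms of `ℂ` can be prescribed separately on
the complex embeddings of the CM fields of the different blocks. (The composita of the Galois
closures of the fields of the different blocks are linearly disjoint over `ℚ`.) -/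
def IsIndependent {K J : Type} (T : K → CMPair) (b : K → J) : Prop :=
  ∀ τ : J → (ℂ ≃+* ℂ), ∃ σ : ℂ ≃+* ℂ, ∀ k (φ : (T k).E →+* ℂ),
    (σ : ℂ →+* ℂ).comp φ = (τ (b k) : ℂ →+* ℂ).comp φ

/-- The condition on the block `B`. -/
def IsGoodBlock {K : Type} (T : K → CMPair) (B : Set K) : Prop :=
  AllConjugate T B ∨ DimAtMostThree T B ∨
    ∃ (L : Type) (_ : Field L) (_ : NumberField L) (_ : IsCMField L),
      AllTypes T B L ∧ finrank ℚ L ≤ 6

/-- Condition (a). -/
def CoveredByTypes (X : AV) : Prop :=
  ∃ (K J : Type) (_ : Fintype K) (T : K → CMPair) (b : K → J), IsIndependent T b ∧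
    (∀ j, IsGoodBlock T {k | b k = j}) ∧ HasFactorsIn T X

/-- Condition (b): all simple factors of `X` are factors of one abelian variety `A` of dimension at most
three. -/
def CoveredByDimension (X : AV) : Prop :=
  ∃ A : AV, finrank ℚ A.H ≤ 6 ∧ ∀ Y, IsFactor Y X → IsFactor Y A

/-- Each simple factor `Y` of `X` has complex multiplication or belongs to one of the classes in
`Typ`, and if it is a fourfold without complex multiplication then imaginary quadratic fields act on
`Y` only with equal multiplicities on the tangent space. -/
def IsAllowed (X : AV) : Prop :=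
  ∀ Y, IsFactor Y X → (HasCMult Y ∨ Typ Y) ∧
    (¬ HasCMult Y → finrank ℚ Y.H = 8 → ∀ d, ¬ Unbalanced Y d)

/-- The covered abelian varieties. In the third case the Hodge conjecture is assumed for all abelian
varieties with complex multiplication. -/
def Covered (C : ChowTheory) (X : AV) : Prop :=
  CoveredByTypes X ∨ CoveredByDimension X ∨ ((∀ D : CMAV, C.alg.AllHodge (av D)) ∧ IsAllowed X)

/-! ## Correspondences and cycles -/

/-- Correspondences of degree zero preserve the degree of the cohomology classes: the component of
degree `m` of `f^* ω` is determined by the component of degree `m` of `ω`. -/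
def PreservesDegrees (C : ChowTheory) : Prop :=
  ∀ (X Y : AV) (f : C.Co X Y), C.IsDeg 0 f → ∀ (ω η : HT Y) (m : ℕ), ω m = η m →
    C.pb f ω m = C.pb f η m

/-- The sums of compositions `κ ∘ Γ`, where `Γ` is a correspondence of degree `-c` from `X` to an
abelian variety `Y` and `κ` a correspondence of degree `c` from `Y` to `X`; or `Y` is a point and the
degrees are `-r` and `r`, where `r < c`. -/
def throughTwists (C : ChowTheory) (X : AV) (c : ℕ) : AddSubgroup (C.Co X X) :=
  AddSubgroup.closure {q | ∃ (Y : AV) (r : ℤ) (Γ : C.Co X Y) (κ : C.Co Y X),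
    (r = c ∨ (r < c ∧ finrank ℚ Y.H = 0)) ∧ C.IsDeg (-r) Γ ∧ C.IsDeg r κ ∧ q = C.o κ Γ}

/-- The homologically trivial cycles of dimension `i` on the motive `(X, p)`: the correspondences of degree
`i` from the point `O` to `X` which are fixed by `p` and act as zero on the cohomology. -/
def Cycles (C : ChowTheory) {X : AV} (p : C.Co X X) (O : AV) (i : ℤ) : Set (C.Co O X) :=
  {z | C.IsDeg i z ∧ C.o p z = z ∧ ∀ ω, C.pb z ω = 0}

/-- The correspondence `f` of degree zero from `X` to `Y` is a morphism from `(X, p)` to `(Y, p')`. -/
def IsMorphism (C : ChowTheory) {X Y : AV} (p : C.Co X X) (p' : C.Co Y Y) (f : C.Co X Y) : Prop :=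
  C.IsMotive p ∧ C.IsMotive p' ∧ C.IsDeg 0 f ∧ C.o f p = f ∧ C.o p' f = f

/-- The image of `f^*` in `H^m(X, ℚ)`. -/
def image (C : ChowTheory) {X Y : AV} (f : C.Co X Y) (m : ℕ) :
    Submodule ℚ (X.H [⋀^Fin m]→ₗ[ℚ] ℚ) :=
  Submodule.span ℚ {θ | ∃ ω, θ = C.pb f ω m}

/-- The kernel of `f^*` on the cohomology `H^m(N, ℚ)` of the motive `N = (Y, p')`: the components of degree
`m` of the classes `ω = p'^* ω` with `f^* ω = 0`. -/
def kernel (C : ChowTheory) {X Y : AV} (p' : C.Co Y Y) (f : C.Co X Y) (m : ℕ) :
    Submodule ℚ (Y.H [⋀^Fin m]→ₗ[ℚ] ℚ) :=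
  Submodule.span ℚ {θ | ∃ ω, C.pb f (C.pb p' ω) = 0 ∧ θ = C.pb p' ω m}

/-- `f^*` is surjective onto `H^(s, t)(X, p)` for all `s ≠ t` with `s < c` or `t < c`. -/
def SurjectiveBelow (C : ChowTheory) {X Y : AV} (p : C.Co X X) (f : C.Co X Y) (c : ℕ) : Prop :=
  ∀ m s t : ℕ, s + t = m → s ≠ t → (s < c ∨ t < c) →
    complexify X.per (C.img p m) ⊓ typeForms X.T m s t ≤ complexify X.per (image C f m)

/-- `f^*` is injective on `H^(s, t)(Y, p')` for all `s ≠ t` with `s < c` or `t < c`. -/
def InjectiveBelow (C : ChowTheory) {X Y : AV} (p' : C.Co Y Y) (f : C.Co X Y) (c : ℕ) : Prop :=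
  ∀ m s t : ℕ, s + t = m → s ≠ t → (s < c ∨ t < c) →
    complexify Y.per (kernel C p' f m) ⊓ typeForms Y.T m s t = ⊥

/-- The generalized Hodge conjecture for the covered abelian varieties. -/
theorem ghc {C : ChowTheory} {X : AV} (hX : Covered C X) : Pool.Agent.N178.HX.GHC C.alg X := by
  rcases hX with ⟨K, J, _, T, b, hb, hj, hX⟩ | ⟨A, hA, hX⟩ | ⟨hH, hX⟩
  · exact Run7.h567.BL.ghcA C.alg T b hb hj hX
  · exact Run7.h567.BL.ghcB C.alg hA hX
  · exact Run7.h567.BL.ghcC C.alg hH hX

/-- **The generalized Bloch conjecture for correspondences between direct summands of the Chow motives of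
abelian varieties.** See the head of the file. -/
theorem result (C : ChowTheory) (c : ℕ) :
    (∀ X : AV, Covered C X → ∀ f : C.Co X X, C.IsDeg 0 f → C.HasConiveau f c →
      (∃ N : ℕ, ∀ (O : AV) (i : ℤ), finrank ℚ O.H = 0 → i < c → ∀ z ∈ Cycles C (C.one X) O i,
        (fun z => C.o f z)^[N] z = 0) ∧
      (C.IsMotive f → f ∈ throughTwists C X c ∧ ∀ (O : AV) (i : ℤ), finrank ℚ O.H = 0 → i < c →
        ∀ z ∈ Cycles C f O i, z = 0)) ∧
    (∀ (X Y : AV) (p : C.Co X X) (p' : C.Co Y Y) (f : C.Co X Y), IsMorphism C p p' f →
      ∀ (O : AV) (i : ℤ), finrank ℚ O.H = 0 → i < c →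
      (Covered C X → PreservesDegrees C → SurjectiveBelow C p f c →
        ∀ z ∈ Cycles C p O i, C.o f z = 0 → z = 0) ∧
      (Covered C Y → InjectiveBelow C p' f c →
        ∀ z ∈ Cycles C p' O i, ∃ y ∈ Cycles C p O i, C.o f y = z)) := by
  refine ⟨fun X hX f hf hc => ⟨?_, fun hm => ?_⟩, fun X Y p p' f h O i hO hi => ⟨?_, ?_⟩⟩
  · obtain ⟨N, hN⟩ := Run7.h567.BL.nilp_of_ghc (ghc hX) hf hc
    exact ⟨N, fun O i hO hi z hz => hN O i z hO hi ⟨hz.1, hz.2.2⟩⟩
  · have h := Pool.Agent.N178.BL.mem_Fac (ghc hX) hm hc
    exact ⟨h, fun O i hO hi z hz =>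
      Pool.Agent.N178.BL.cycle_zero h hO hi hz.1 hz.2.1 hz.2.2⟩
  · exact fun hX hC hs z hz hfz => Run7.h567.BL.inj_of_ghc (ghc hX) hC h.1 h.2.2.1 h.2.2.2.1 hs
      hO hi ⟨hz.1, hz.2.2⟩ hz.2.1 hfz
  · intro hY hs z hz
    obtain ⟨y, hy, hpy, hfy⟩ := Run7.h567.BL.surj_of_ghc (ghc hY) h.1 h.2.1 h.2.2.1 h.2.2.2.1
      h.2.2.2.2 hs hO hi ⟨hz.1, hz.2.2⟩ hz.2.1
    exact ⟨y, ⟨hy.1, hpy, hy.2⟩, hfy⟩

end Pool.Agent.Results.MP_13bc1c_ag.Correspondences
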