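import Pool.Agent.Run7.h1.Corr.Bloch

/-!
# MP_13bc1c_ag: the generalized Bloch conjecture and one cycle, modulo smash-nilpotence

Let `Y` be a smooth projective complex variety whose cohomology is the direct sum of a part spanned by `b`
algebraic classes `a_i` with the invertible intersection matrix `G`, and of a part of odd degree and of
dimension `2 n`. For `n = 0` the variety `Y` has Hodge coniveau `≥ c` for all `c`, and the question is whether all
homologically trivial cycles on `Y` are zero: for instance surfaces with `p_g = q = 0`, fake projective planes,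
their products and Hilbert schemes of points. For `n > 0`: odd-dimensional complete intersections, such as the
quintic threefold (`b = 4`, `2 n = 204`). Let

`t = Δ - ∑ (G⁻¹)_(i, j) a_i × a_j ∈ CH(Y × Y)_ℚ`,

and let `H` be the sum of the products `t_(i_1, j_1) ⋯ t_(i_(n+1), j_(n+1))` over all partitions of the
`2 n + 2` factors of `Y ^ (2 n + 2)` into pairs, a homologically trivial cycle; `H = 2 t` for `n = 0`.

Theorem.

0. If `t = 0`, then all numerically trivial cycles on `Y` are zero. If `n = 0`, then `H = 0` if and only if
   `t = 0`.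
1. The following are equivalent: `H = 0`; `H` is smash-nilpotent; `Sym^(2 n + 1) (Y, t) = 0` (`Y` is finite-dimensional
   in the sense of Kimura); for some `N` the cycle of `Sym^N (Y, t)` is smash-nilpotent.
2. If `H` is not smash-nilpotent, then
   * at least `((b + 2 n + 4) ^ m + (b - 2 n - 4) ^ m) / (2 binomial(⌊m / 2⌋ + D, D))`,
     `D = (2 n + 3) (2 n + 5)`, of the products on `Y ^ m` of disjoint diagonals and classes `a_i` (each
     factor of `Y ^ m` used once) are linearly independent modulo smash-nilpotent cycles;
   * if a linear combination `∑_σ c_σ ∏_i t_(i, k + σ(i))` on `Y ^ (2 k)` is smash-nilpotent, then `c` acts as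
     zero on the `k`-th tensor power of the super vector space with `2` even and `2 n + 2` odd dimensions;
   * for all `m < 6 (n + 2)` the `(m - 1)!!` products of the pull-backs of `t` to `Y ^ m` for the partitions
     of the factors into pairs are linearly independent modulo smash-nilpotent cycles.

For `n = 0` the question for `Y` and all `c` is equivalent to `t = 0`; so one nontrivial linear relation modulo
algebraic equivalence between the 945 products on `Y ^ 10` gives an affirmative answer for `Y`. For `n > 0`, if
the odd cohomology of `Y` is supported in codimension `c` (geometric coniveau), then Kimura finite-dimensionality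
of `Y` gives an affirmative answer for `Y` and `c`, by the nilpotence theorem.

Parts 1 and 2 are the theorem of helper570 (first handed in as `MP_bf8edd_ag.SmashNilpotentGap`).
-/

set_option autoImplicit false

open Pool.Agent.Run7.h570.GAP

namespace Pool.Agent.Results.MP_13bc1c_ag.SmashGap

universe u

/-- Let `R` be a system `A(m)` of rings with the formal properties of the rational Chow rings of the powers of a
variety, `a_i` classes in `A(1)` with the invertible symmetric intersection matrix `G` of rank `b`, let the
Euler number be `b - 2 n`, and `t = tr R a G` the complement of the part of the diagonal given by the `a_i`.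
Then the statements 0, 1 and 2 above hold. -/
theorem result {R : PowerRings.{u}} {b : ℕ} {a : Fin b → R.A 1} {G : Matrix (Fin b) (Fin b) ℚ}
    (h : PreTate R a G) (n : ℕ)
    (he : R.push (R.push (R.diag * R.diag)) = algebraMap ℚ (R.A 0) (b - 2 * n)) :
    ((tr R a G = 0 → ∀ x : R.A 1, (∀ i, R.push (a i * x) = 0) → x = 0) ∧
      (haf (tr R a G) 1 = 0 ↔ tr R a G = 0)) ∧
    [haf (tr R a G) (n + 1) = 0, SmashNil R (haf (tr R a G) (n + 1)),
      sym (tr R a G) (2 * n + 1) = 0, ∃ N, SmashNil R (sym (tr R a G) N)].TFAE ∧
    (¬ SmashNil R (haf (tr R a G) (n + 1)) →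
      (∀ m : ℕ, ∃ (N : ℕ) (v : Fin N → R.A m), (∀ j, IsProduct R a m (v j)) ∧
        (∀ c : Fin N → ℚ, SmashNil R (∑ j, c j • v j) → c = 0) ∧
        ((b : ℤ) + (2 * n + 4 : ℕ)) ^ m + ((b : ℤ) - (2 * n + 4 : ℕ)) ^ m ≤
          2 * ((m / 2 + (2 * n + 3) * (2 * n + 5)).choose ((2 * n + 3) * (2 * n + 5)) : ℕ) * N) ∧
      (∀ (k : ℕ) (c : Equiv.Perm (Fin k) → ℚ),
        SmashNil R (∑ σ, c σ • ∏ i, R.pull ![Fin.castAdd k i, Fin.natAdd k (σ i)] (tr R a G)) →
          SuperRel (fun x : Fin (2 * n + 4) => decide (2 ≤ (x : ℕ))) c) ∧
      (∀ m < 6 * (n + 2), ∀ c : Matching m → ℚ,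
        SmashNil R (∑ τ, c τ • mprod (tr R a G) τ) → c = 0)) :=
  ⟨⟨fun h0 x hx => Pool.Agent.Run7.h1.Corr.zero_of_tr h0 x hx,
    Pool.Agent.Run7.h1.Corr.haf_one_iff h⟩, h.smashGap n he⟩

end Pool.Agent.Results.MP_13bc1c_ag.SmashGap
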