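import Pool.Agent.Run7.h366.Cov

/-!
# The generalized Bloch conjecture for zero-cycles on the images of towers over hypersurfaces and over
coverings of complete intersections

A tower of dimension `n` with the bound `s` (`Tower c n Base K s`) is a sequence of dominant rational
maps of finite degree `V = V_0 ⇢ V_1 ⇢ ... ⇢ V_k` between varieties of dimension `n` over `ℂ`. At the step
`V_i ⇢ V_(i + 1)`, of degree `b_i`, the canonical bundle of `V_i` is positive relative to `V_(i + 1)`
(`Positive`): `V_(i + 1)` is the image of `V_i` in a projective space, and for all varieties `Y'`,
`V_i ⇢ Y' ⇢ V_(i + 1)`, of degree `> 1` over `V_(i + 1)` there is a section of `K_(V_i) - m H` with a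
nonzero trace on `Y'`, where `s_i ≤ [V_i : Y'] (m + 1)`; for instance cyclic coverings of prime degree
branched along a sufficiently positive divisor. The bounds are `s_0 = s`, `s_(i + 1) = ⌊s_i / b_i⌋`. The
last variety `V_k`, with the bound `s_k`, is

* a smooth hypersurface of degree `d` in `ℙ^(n + 1)`, where for some `N` one has `d ≥ 7 N + n + 6`,
  `d > (n + 1) N`, `d > c (N + n - 1)` and `s_k < (N + 1) (d - n - N)`; or
* any variety with a generically finite map, of any degree, to a variety in `ℙ^(M + 1)` which is cut out
  by equations of degree at most `D` and has the regular canonical forms `P(x) ω₀` for all forms `P`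
  of degree `m`, for instance a smooth complete intersection of codimension at least two with
  `K = O(m)`; where for some `N` one has `m ≥ 7 N + 4`, `m + M + 2 > (M + 1) N`, `m + 2 ≥ D + N` and
  `s_k < (N + 1) (m + 2 - N)`; or
* any variety which is covered by unirational varieties of dimension `ρ` (`IsCovered`), without
  condition on `s_k`: it is dominated with finite degree by `T × ℙ^ρ`. For `ρ = n` these are the
  unirational varieties, for `ρ = n - 1` the varieties dominated by `C × ℙ^(n - 1)` for a curve `C`.

Let `V` be the first variety of a tower with the bound `s = r` (and `c = 2`), `1 ≤ ρ ≤ n`, and let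
`V ⇢ X` be any dominant rational map of degree `r`; nothing is assumed about the map (it need not be a
quotient by a group and has no relation to the tower) or about `X`. The theorem: the geometric genus
`p_g(Y) = h^{n,0}(Y)` of the smooth projective models `Y` of `X` is zero if and only if `Y` is covered by
unirational varieties of dimension `ρ`.

So the generalized Bloch conjecture holds for all these `Y` for `c = 1` if `ρ = n` or `ρ = n - 1`: if `Y` has
Hodge coniveau `≥ 1`, that is, `h^{p,0}(Y) = 0` for all `p ≥ 1`, or only for `p = n` and `p = 1`, then
`A_0^{hom}(Y) = 0`. (If `Y` is unirational then all zero-cycles of degree zero are rationally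
equivalent to zero. If `Y` is dominated by `C × ℙ^(n - 1)` then `A_0(Y)` is supported on a curve, hence
`A_0^{hom}(Y)` is the Albanese variety of `Y`, tensored with `ℚ`, which is zero if `h^{1,0}(Y) = 0`. This
is standard and not formalised here.) For all `ρ` the zero-cycles on these `Y` are supported on a
subvariety of dimension `n - ρ`.

With the best `N` the bound for the degree `r` is of the order of `b d ^ 2` (`b = b_0 ... b_(k - 1)`) for
towers over hypersurfaces of degree `d`, and of the order of `b m ^ 2` for towers over coverings of
complete intersections. The starting result of this question has towers of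
nondegenerate complete intersections in tori over unirational varieties (`TowersGenusZero`); the
hypersurfaces and the coverings of varieties of low degree as bases are new here.

The theorem for `ρ = 1` and `ρ = n` is helper260's (`Pool/Agent/Run7/h260/TW/*`, handed in as
`MP_e06174_ag.ImagesOfTowers` and `MP_5ff3c6_ag.ImagesOfTowers`), and the proof is theirs for all `ρ`; new
are the other `ρ` (`Pool/Agent/Run7/h366/Cov.lean`), which are also handed in for the question on
correspondences, `MP_e1e111_ag.ImagesOfTowers`. Proof: if `p_g(X) = 0` then the traces of the canonical
forms to `X` are zero, and at each step `V_i ⇢ X` factors through `V_(i + 1)`; at the bottom the theorems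
on hypersurfaces and on complete intersections of quadratic degree (`N162/HN`, `N162/GP`) are used.

`K` and `L` are the function fields of `V` and `X`. `GenusZero L n`: the only canonical form which is
regular at all prime divisors of all models is `0`.
-/

set_option autoImplicit false
set_option linter.overlappingInstances false

open FF Module Pool.Agent.W602.GT
open Pool.Agent.R882.Over (GenusZero)
open Pool.Agent.Run7.h260.TW (Tower)
open Run7.h366.CV (IsCovered)

namespace Pool.Agent.Results.MP_13bc1c_ag.TowersOverLowDegree

/-- **Images of towers of geometric genus zero.** Let `1 ≤ ρ ≤ n`, let `K` be the function field of the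
first variety `V` of a tower of dimension `n` with the bound `r` over a smooth hypersurface, a covering
of a variety of low degree, or a variety covered by unirational varieties of dimension `ρ`, and let
`V ⇢ X` be a dominant rational map of degree `r`, `L` the function field of `X`. Then `p_g(X) = 0` if and
only if `X` is covered by unirational varieties of dimension `ρ`. -/
theorem result {n ρ : ℕ} (hρ : 1 ≤ ρ) (hρn : ρ ≤ n) {K : Type} [Field K] [Algebra ℂ K]
    [Algebra.EssFiniteType ℂ K] (hK : Algebra.trdeg ℂ K = n) (L : Type) [Field L] [Algebra ℂ L]
    [Algebra L K] [IsScalarTower ℂ L K] [FiniteDimensional L K]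
    (h : Tower 2 n (fun E _ _ => IsCovered E n ρ) K (Module.finrank L K)) :
    GenusZero L n ↔ IsCovered L n ρ :=
  (Run7.h366.CV.genus_covered hρ hρn hK L h).out 0 4

end Pool.Agent.Results.MP_13bc1c_ag.TowersOverLowDegree
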